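import Pool.Agent.H561R2.LN.Rand

/-!
# The lower bound for comparing labelled bits
-/

namespace Pool.Agent.H561R2.LN

open Finset Pool.Agent.H561R2.RO

theorem sides {n K : ℕ} (hn : n = 64 * K) (B : Finset (Fin n ⊕ Fin n)) (h1 : 18 * K < B.card)
    (h2 : B.card ≤ 2 * (18 * K)) : ∃ A1 A2 : Finset (Fin n),
    (∀ i ∈ A1, ∀ j ∈ A2, (Sum.inl i ∈ B ∧ Sum.inr j ∉ B) ∨ (Sum.inl i ∉ B ∧ Sum.inr j ∈ B)) ∧
    (∀ i ∈ A1, K ≤ i.1) ∧ (∀ j ∈ A2, K ≤ j.1) ∧ 8 * K ≤ A1.card ∧ 8 * K ≤ A2.card := by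
  have hab := Finset.card_toLeft_add_card_toRight (u := B)
  have hsm : ∀ A : Finset (Fin n), A.card ≤ (A.filter fun i => K ≤ i.1).card + K := by
    intro A
    have h3 := Finset.card_filter_add_card_filter_not (s := A) (fun i : Fin n => K ≤ i.1)
    have h4 : (A.filter fun i : Fin n => ¬K ≤ i.1).card ≤ K := by
      have h5 : (A.filter fun i : Fin n => ¬K ≤ i.1).card ≤ (Finset.range K).card := by
        refine Finset.card_le_card_of_injOn (fun i => i.1) ?_ ?_
        · intro i hi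
          rw [Finset.mem_coe, Finset.mem_filter] at hi
          rw [Finset.mem_coe, Finset.mem_range]
          have := hi.2
          show i.1 < K
          omega
        · intro i _ j _ hij
          exact Fin.ext hij
      rwa [Finset.card_range] at h5
    omega
  have hc : ∀ A : Finset (Fin n), Aᶜ.card + A.card = n := by
    intro A
    rw [Finset.card_compl, Fintype.card_fin]
    have := Finset.card_le_univ A
    rw [Fintype.card_fin] at this
    omega
  have hl := hc B.toLeft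
  have hr := hc B.toRight
  by_cases h : B.toRight.card ≤ B.toLeft.card
  · refine ⟨B.toLeft.filter fun i => K ≤ i.1, B.toRightᶜ.filter fun i => K ≤ i.1, ?_, ?_, ?_, ?_,
      ?_⟩
    · intro i hi j hj
      rw [Finset.mem_filter, Finset.mem_toLeft] at hi
      rw [Finset.mem_filter, Finset.mem_compl, Finset.mem_toRight] at hj
      exact Or.inl ⟨hi.1, hj.1⟩
    · intro i hi
      exact (Finset.mem_filter.1 hi).2
    · intro i hi
      exact (Finset.mem_filter.1 hi).2
    · have := hsm B.toLeft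
      omega
    · have := hsm B.toRightᶜ
      omega
  · refine ⟨B.toLeftᶜ.filter fun i => K ≤ i.1, B.toRight.filter fun i => K ≤ i.1, ?_, ?_, ?_, ?_,
      ?_⟩
    · intro i hi j hj
      rw [Finset.mem_filter, Finset.mem_compl, Finset.mem_toLeft] at hi
      rw [Finset.mem_filter, Finset.mem_toRight] at hj
      exact Or.inr ⟨hi.1, hj.1⟩
    · intro i hi
      exact (Finset.mem_filter.1 hi).2
    · intro i hi
      exact (Finset.mem_filter.1 hi).2
    · have := hsm B.toLeftᶜ
      omega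
    · have := hsm B.toRight
      omega

variable {n S K : ℕ} {Lab : Type} [DecidableEq Lab] [Fintype Lab]

/-- The first `K` labels are fixed. -/
def full (e : Fin K ≃ Lab) (lam : Fin n → Lab) (i : Fin n) : Lab :=
  if h : i.1 < K then e ⟨i.1, h⟩ else lam i

omit [Fintype Lab] [DecidableEq Lab] in
theorem full_surj (hn : n = 64 * K) (e : Fin K ≃ Lab) (lam : Fin n → Lab) (x : Lab) :
    ∃ i, full e lam i = x := by
  have hlt := (e.symm x).2
  refine ⟨⟨(e.symm x).1, by omega⟩, ?_⟩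
  unfold full
  rw [dif_pos (by exact hlt)]
  simp

theorem unhit_full (e : Fin K ≃ Lab) (lam : Fin n → Lab) {A : Finset (Fin n)}
    (hA : ∀ i ∈ A, K ≤ i.1) : unhit (full e lam) A = unhit lam A := by
  unfold unhit
  refine Finset.filter_congr fun x _ => ?_
  refine forall₂_congr fun i hi => ?_
  unfold full
  rw [dif_neg (by have := hA i hi; omega)]

open Classical in
/-- **The lower bound.** -/
theorem avg_bound (hK : K = Fintype.card Lab) (hK0 : 0 < K) (hn : n = 64 * K) (e : Fin K ≃ Lab)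
    (B : Fin S → Finset (Fin n ⊕ Fin n))
    (C : (Fin n → Lab) → (Fin n → Lab) → Circ (Fin n ⊕ Fin n) Bool S) (r : Fin S)
    (hscope : ∀ lam mu h, (C lam mu).scope h = B h)
    (hleaf : ∀ lam mu, (C lam mu).LeafLE (2 * (18 * K)))
    (hgood : ∀ lam mu, Good (C lam mu) r lam mu) : 2 ^ K ≤ S ^ 2 := by
  set bal : Finset (Fin S) := univ.filter fun h => 18 * K < (B h).card ∧ (B h).card ≤ 2 * (18 * K)
    with hbal
  have hex : ∀ h : Fin S, ∃ A : Finset (Fin n) × Finset (Fin n), h ∈ bal →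
      (∀ i ∈ A.1, ∀ j ∈ A.2, (Sum.inl i ∈ B h ∧ Sum.inr j ∉ B h) ∨
        (Sum.inl i ∉ B h ∧ Sum.inr j ∈ B h)) ∧
      (∀ i ∈ A.1, K ≤ i.1) ∧ (∀ j ∈ A.2, K ≤ j.1) ∧ 8 * K ≤ A.1.card ∧ 8 * K ≤ A.2.card := by
    intro h
    by_cases hh : h ∈ bal
    · rw [hbal, Finset.mem_filter] at hh
      obtain ⟨A1, A2, hA⟩ := sides hn (B h) hh.2.1 hh.2.2
      exact ⟨(A1, A2), fun _ => hA⟩
    · exact ⟨(∅, ∅), fun h' => absurd h' hh⟩
  choose A hA using hex
  have hkey : ∀ lam mu : Fin n → Lab, (2 : ℝ) ^ K ≤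
      ∑ h ∈ bal, (2 : ℝ) ^ (unhit lam (A h).1).card * 2 ^ (unhit mu (A h).2).card := by
    intro lam mu
    obtain ⟨D, hD⟩ : ∃ D, D = C (full e lam) (full e mu) := ⟨_, rfl⟩
    have hg : Good D r (full e lam) (full e mu) := by rw [hD]; exact hgood _ _
    have hcov : (univ : Finset (Lab → Bool)) ⊆ bal.biUnion fun h =>
        univ.filter fun P : Lab → Bool => Thr D r h (full e lam) (full e mu) P := by
      intro P _
      obtain ⟨h, h1, h2, h3⟩ := exists_through hg (fun i => full_surj hn e mu _)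
        (fun j => full_surj hn e lam _) (w := 18 * K) (by omega) (by rw [hD]; exact hleaf _ _)
        (by omega) P
      rw [Finset.mem_biUnion]
      refine ⟨h, ?_, Finset.mem_filter.2 ⟨Finset.mem_univ _, h3⟩⟩
      rw [hbal, Finset.mem_filter]
      rw [hD, hscope] at h1 h2
      exact ⟨Finset.mem_univ _, h1, h2⟩
    have h1 := (Finset.card_le_card hcov).trans Finset.card_biUnion_le
    rw [Finset.card_univ, Fintype.card_fun, Fintype.card_bool, ← hK] at h1
    have h2 : 2 ^ K ≤ ∑ h ∈ bal, 2 ^ (unhit lam (A h).1).card * 2 ^ (unhit mu (A h).2).card := by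
      refine h1.trans (Finset.sum_le_sum fun h hh => ?_)
      obtain ⟨a1, a2, a3, a4, a5⟩ := hA h hh
      rw [← unhit_full e lam a2, ← unhit_full e mu a3]
      refine count_through hg h ?_
      rw [hD, hscope]
      exact a1
    exact_mod_cast h2
  have hKr : (0 : ℝ) < K := by exact_mod_cast hK0
  have hsum := Finset.sum_le_sum (s := (univ : Finset ((Fin n → Lab) × (Fin n → Lab))))
    fun q _ => hkey q.1 q.2
  rw [Finset.sum_comm, Finset.sum_const, Finset.card_univ, Fintype.card_prod, Fintype.card_fun,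
    Fintype.card_fin, ← hK, nsmul_eq_mul] at hsum
  have hfac : ∀ h ∈ bal, ∑ q : (Fin n → Lab) × (Fin n → Lab),
      (2 : ℝ) ^ (unhit q.1 (A h).1).card * 2 ^ (unhit q.2 (A h).2).card ≤
      ((K : ℝ) ^ n * (257 / 256) ^ K) * ((K : ℝ) ^ n * (257 / 256) ^ K) := by
    intro h hh
    obtain ⟨a1, a2, a3, a4, a5⟩ := hA h hh
    have s1 := sum_unhit (Lab := Lab) (A h).1 (by rw [← hK]; exact hK0) (by rw [← hK]; exact a4)
    have s2 := sum_unhit (Lab := Lab) (A h).2 (by rw [← hK]; exact hK0) (by rw [← hK]; exact a5)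
    rw [← hK] at s1 s2
    rw [Fintype.sum_prod_type]
    simp only
    rw [← Finset.sum_mul_sum]
    exact mul_le_mul s1 s2 (Finset.sum_nonneg fun _ _ => by positivity) (by positivity)
  have hle : ((K ^ n * K ^ n : ℕ) : ℝ) * 2 ^ K ≤
      S * (((K : ℝ) ^ n * (257 / 256) ^ K) * ((K : ℝ) ^ n * (257 / 256) ^ K)) := by
    refine hsum.trans ((Finset.sum_le_sum hfac).trans ?_)
    rw [Finset.sum_const, nsmul_eq_mul]
    refine mul_le_mul_of_nonneg_right ?_ (by positivity)
    have : bal.card ≤ S := by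
      have := Finset.card_le_univ bal
      rwa [Fintype.card_fin] at this
    exact_mod_cast this
  have h3 : (2 : ℝ) ^ K ≤ S * ((257 / 256) ^ 2) ^ K := by
    have hpos : (0 : ℝ) < (K : ℝ) ^ n * (K : ℝ) ^ n := by positivity
    refine le_of_mul_le_mul_left ?_ hpos
    calc ((K : ℝ) ^ n * (K : ℝ) ^ n) * 2 ^ K = ((K ^ n * K ^ n : ℕ) : ℝ) * 2 ^ K := by push_cast; rfl
      _ ≤ _ := hle
      _ = _ := by
          rw [← pow_mul, mul_comm 2 K, pow_mul]
          ring
  have h4 : ((2 : ℝ) ^ K) ^ 2 ≤ (S : ℝ) ^ 2 * 2 ^ K := by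
    calc ((2 : ℝ) ^ K) ^ 2 ≤ (S * ((257 / 256) ^ 2) ^ K) ^ 2 :=
          pow_le_pow_left₀ (by positivity) h3 2
      _ = (S : ℝ) ^ 2 * (((257 / 256) ^ 2) ^ 2) ^ K := by
          rw [mul_pow]
          congr 1
          rw [← pow_mul, ← pow_mul, ← pow_mul, ← pow_mul]
          congr 1
          ring
      _ ≤ (S : ℝ) ^ 2 * 2 ^ K :=
          mul_le_mul_of_nonneg_left (pow_le_pow_left₀ (by positivity) (by norm_num) _)
            (by positivity)
  have h5 : (2 : ℝ) ^ K ≤ (S : ℝ) ^ 2 := by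
    have hpos : (0 : ℝ) < 2 ^ K := by positivity
    refine le_of_mul_le_mul_right ?_ hpos
    rw [sq] at h4
    exact h4
  exact_mod_cast h5

end Pool.Agent.H561R2.LN
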