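import Pool.Agent.H561R2.LN.Gram

/-!
# Block words
-/

namespace Pool.Agent.H561R2.LN

/-- The letters of the blocks. -/
def blk (c : ℕ) (g : ℕ → ℕ → Bool) (P : ℕ) : Lt :=
  if P % (c + 2) = 0 then .hash else .bit (g (P / (c + 2)) (P % (c + 2) - 1))

/-- The bits of the blocks on the left. -/
def ga (c : ℕ) (lam : ℕ → ℕ → Bool) (p : ℕ → Bool) (i k : ℕ) : Bool :=
  if k < c then lam i k else p i

/-- The bits of the blocks on the right. -/
def gb (c : ℕ) (mu : ℕ → ℕ → Bool) (q : ℕ → Bool) (j k : ℕ) : Bool :=
  if k = 0 then q j else mu j (c - k)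

/-- The letters of the word. -/
def W (c n : ℕ) (lam mu : ℕ → ℕ → Bool) (p q : ℕ → Bool) (P : ℕ) : Lt :=
  if P < n * (c + 2) + 1 then blk c (ga c lam p) P
  else if P = n * (c + 2) + 1 then .dlr
  else blk c (gb c mu q) (P - (n * (c + 2) + 2))

theorem blk_block (c : ℕ) (g : ℕ → ℕ → Bool) (i k : ℕ) (hk : k < c + 1) :
    blk c g (i * (c + 2) + 1 + k) = .bit (g i k) := by
  have h1 : (i * (c + 2) + 1 + k) % (c + 2) = 1 + k := by
    rw [add_assoc, Nat.mul_add_mod_self_right, Nat.mod_eq_of_lt (by omega)]
  have h2 : (i * (c + 2) + 1 + k) / (c + 2) = i := by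
    rw [add_assoc, Nat.mul_comm, Nat.mul_add_div (by omega), Nat.div_eq_of_lt (by omega)]
    omega
  unfold blk
  rw [h1, h2, if_neg (by omega)]
  congr 2
  omega

theorem blk_hash (c : ℕ) (g : ℕ → ℕ → Bool) (i : ℕ) : blk c g (i * (c + 2)) = .hash := by
  unfold blk
  rw [if_pos (Nat.mul_mod_left _ _)]

theorem blk_eq_hash {c : ℕ} {g : ℕ → ℕ → Bool} {P : ℕ} (h : blk c g P = .hash) :
    ∃ i, P = i * (c + 2) := by
  unfold blk at h
  split_ifs at h with h1
  exact ⟨P / (c + 2), (Nat.div_mul_cancel (Nat.dvd_of_mod_eq_zero h1)).symm⟩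

theorem blk_ne_dlr {c : ℕ} {g : ℕ → ℕ → Bool} {P : ℕ} : blk c g P ≠ .dlr := by
  unfold blk
  split_ifs <;> simp

section

variable {c n : ℕ} {lam mu : ℕ → ℕ → Bool} {p q : ℕ → Bool}

theorem W_left {P : ℕ} (h : P < n * (c + 2) + 1) : W c n lam mu p q P = blk c (ga c lam p) P :=
  if_pos h

theorem W_right (P : ℕ) : W c n lam mu p q (n * (c + 2) + 2 + P) = blk c (gb c mu q) P := by
  unfold W
  rw [if_neg (by omega), if_neg (by omega)]
  congr 1
  omega

theorem W_dlr : W c n lam mu p q (n * (c + 2) + 1) = .dlr := by
  unfold W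
  rw [if_neg (lt_irrefl _), if_pos rfl]

theorem W_eq_dlr {P : ℕ} (h : W c n lam mu p q P = .dlr) : P = n * (c + 2) + 1 := by
  unfold W at h
  split_ifs at h with h1 h2
  · exact absurd h blk_ne_dlr
  · exact h2
  · exact absurd h blk_ne_dlr

/-- A segment. -/
def seg (f : ℕ → Lt) (s l : ℕ) : List Lt := (List.range' s l).map f

theorem seg_append {f : ℕ → Lt} {s l s' l' : ℕ} (h : s' = s + l) :
    seg f s l ++ seg f s' l' = seg f s (l + l') := by
  subst h
  unfold seg
  rw [← List.map_append]
  congr 1
  have := List.range'_append (s := s) (m := l) (n := l') (step := 1)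
  rwa [one_mul] at this

theorem seg_one {f : ℕ → Lt} {s : ℕ} {a : Lt} (h : f s = a) : seg f s 1 = [a] := by
  unfold seg
  simp [h]

theorem seg_get {f : ℕ → Lt} {N : ℕ} {u v : List Lt} {a : Lt} (h : seg f 0 N = u ++ a :: v) :
    f u.length = a ∧ u.length < N := by
  have h1 : (seg f 0 N)[u.length]? = some a := by
    rw [h]
    simp
  unfold seg at h1
  rw [List.getElem?_map] at h1
  have hlen : u.length < N := by
    have := congrArg List.length h
    unfold seg at this
    simp at this
    omega
  rw [List.getElem?_range' hlen] at h1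
  simp at h1
  exact ⟨h1, hlen⟩

/-- The word. -/
def word (c n : ℕ) (lam mu : ℕ → ℕ → Bool) (p q : ℕ → Bool) : List Lt :=
  seg (W c n lam mu p q) 0 (2 * (n * (c + 2) + 1) + 1)

theorem mem_word : word c n lam mu p q ∈ gram.language ↔
    ∃ i < n, ∃ j < n, (∀ k < c, lam i k = mu j k) ∧ p i = q j := by
  rw [mem_iff]
  constructor
  · rintro ⟨x, t, v, α, hv, hw⟩
    unfold word at hw
    obtain ⟨v1, v2, rfl⟩ := List.append_of_mem hv
    obtain ⟨D, hD⟩ : ∃ D, D = n * (c + 2) + 1 := ⟨_, rfl⟩
    -- the four separators
    have g1 := seg_get hw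
    have g2 := seg_get (u := x ++ .hash :: α.map .bit) (a := .hash)
      (v := v1 ++ .dlr :: v2 ++ .hash :: (α.reverse.map .bit ++ .hash :: t)) (by rw [hw]; simp)
    have g3 := seg_get (u := x ++ .hash :: α.map .bit ++ .hash :: v1) (a := .dlr)
      (v := v2 ++ .hash :: (α.reverse.map .bit ++ .hash :: t)) (by rw [hw]; simp)
    have g4 := seg_get (u := x ++ .hash :: α.map .bit ++ .hash :: v1 ++ .dlr :: v2) (a := .hash)
      (v := α.reverse.map .bit ++ .hash :: t) (by rw [hw]; simp)
    have g5 := seg_get (u := x ++ .hash :: α.map .bit ++ .hash :: v1 ++ .dlr :: v2 ++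
      .hash :: α.reverse.map .bit) (a := .hash) (v := t) (by rw [hw]; simp)
    have split : ∀ (β : List Bool) (k : ℕ) (e : Bool), β[k]? = some e →
        β.map Lt.bit = (β.take k).map .bit ++ .bit e :: (β.drop (k + 1)).map .bit ∧
          k < β.length := by
      intro β k e he
      obtain ⟨h, rfl⟩ := List.getElem?_eq_some_iff.1 he
      refine ⟨?_, h⟩
      rw [← List.map_cons, ← List.map_append, List.getElem_cons_drop, List.take_append_drop]
    have g6 : ∀ k e, α[k]? = some e → W c n lam mu p q (x.length + 1 + k) = .bit e := by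
      intro k e he
      obtain ⟨h1, hk⟩ := split α k e he
      have := seg_get (u := x ++ .hash :: (α.take k).map .bit) (a := .bit e)
        (v := (α.drop (k + 1)).map .bit ++ .hash :: (v1 ++ .dlr :: v2 ++ .hash ::
          (α.reverse.map .bit ++ .hash :: t))) (by
          rw [hw, h1]
          simp only [List.append_assoc, List.cons_append])
      have h2 := this.1
      simp only [List.length_append, List.length_cons, List.length_map, List.length_take] at h2
      rw [← h2]
      congr 1
      omega
    have g7 : ∀ k e, α.reverse[k]? = some e →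
        W c n lam mu p q (x.length + 1 + α.length + 1 + v1.length + 1 + v2.length + 1 + k) =
        .bit e := by
      intro k e he
      obtain ⟨h1, hk⟩ := split α.reverse k e he
      have := seg_get (u := x ++ .hash :: α.map .bit ++ .hash :: v1 ++ .dlr :: v2 ++
        .hash :: (α.reverse.take k).map .bit) (a := .bit e)
        (v := (α.reverse.drop (k + 1)).map .bit ++ .hash :: t) (by
          rw [hw, h1]
          simp only [List.append_assoc, List.cons_append])
      have h2 := this.1
      simp only [List.length_append, List.length_cons, List.length_map, List.length_take] at h2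
      rw [← h2]
      congr 1
      omega
    simp only [List.length_append, List.length_cons, List.length_map, List.length_reverse]
      at g2 g3 g4 g5
    obtain ⟨a, ha⟩ : ∃ a, a = x.length := ⟨_, rfl⟩
    obtain ⟨l, hl⟩ : ∃ l, l = α.length := ⟨_, rfl⟩
    have hDeq := W_eq_dlr g3.1
    rw [← ha] at g1
    rw [← ha, ← hl] at g2 g3 g4 g5 hDeq
    -- the left block
    have h1 : a < n * (c + 2) + 1 := by omega
    have h2 : a + (l + 1) < n * (c + 2) + 1 := by omega
    rw [W_left h1] at g1
    obtain ⟨i, hi⟩ := blk_eq_hash g1.1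
    rw [W_left h2] at g2
    obtain ⟨i', hi'⟩ := blk_eq_hash g2.1
    have hl1 : l = c + 1 := by
      by_contra hne
      rcases Nat.lt_or_gt_of_ne hne with h | h
      · have h3 := g2.1
        rw [hi, show i * (c + 2) + (l + 1) = i * (c + 2) + 1 + l by omega,
          blk_block c _ i l (by omega)] at h3
        exact absurd h3 (by simp)
      · have h3 := g6 (c + 1) _ (List.getElem?_eq_getElem (by omega))
        rw [← ha, W_left (by omega), show a + 1 + (c + 1) = (i + 1) * (c + 2) by rw [hi]; ring,
          blk_hash] at h3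
        exact absurd h3 (by simp)
    have hin : i < n := by
      have : (i + 1) * (c + 2) < n * (c + 2) + 1 := by
        rw [hl1, hi] at h2
        calc (i + 1) * (c + 2) = i * (c + 2) + (c + 1 + 1) := by ring
          _ < _ := h2
      by_contra hcon
      push Not at hcon
      have := Nat.mul_le_mul_right (c + 2) (Nat.succ_le_succ hcon)
      have e : (n + 1) * (c + 2) = n * (c + 2) + (c + 2) := by ring
      rw [Nat.succ_eq_add_one, Nat.succ_eq_add_one] at this
      omega
    -- the right block
    obtain ⟨b, hb⟩ : ∃ b, a + (l + 1) + (v1.length + 1) + (v2.length + 1) =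
      n * (c + 2) + 2 + b := ⟨v2.length, by omega⟩
    rw [hb, W_right] at g4
    obtain ⟨j, hj⟩ := blk_eq_hash g4.1
    have hjn : j < n := by
      have h5 := g5.2
      have : (j + 1) * (c + 2) < n * (c + 2) + 1 := by
        have e : (j + 1) * (c + 2) = j * (c + 2) + (c + 2) := by ring
        rw [e]
        omega
      by_contra hcon
      push Not at hcon
      have := Nat.mul_le_mul_right (c + 2) (Nat.succ_le_succ hcon)
      have e : (n + 1) * (c + 2) = n * (c + 2) + (c + 2) := by ring
      rw [Nat.succ_eq_add_one, Nat.succ_eq_add_one] at this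
      omega
    have ha2 : ∀ k, k < c + 1 → α[k]? = some (ga c lam p i k) := by
      intro k hk
      have h0 : α[k]? = some α[k] := List.getElem?_eq_getElem (by omega)
      have h3 := g6 k _ h0
      rw [← ha, W_left (by omega), show a + 1 + k = i * (c + 2) + 1 + k by omega,
        blk_block c _ i k hk] at h3
      rw [h0, Lt.bit.inj h3]
    have hb2 : ∀ k, k < c + 1 → α[c - k]? = some (gb c mu q j k) := by
      intro k hk
      obtain ⟨e, h0⟩ : ∃ e, α.reverse[k]? = some e :=
        ⟨_, List.getElem?_eq_getElem (by rw [List.length_reverse]; omega)⟩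
      have h3 := g7 k e h0
      rw [← ha, ← hl, show a + 1 + l + 1 + v1.length + 1 + v2.length + 1 + k =
        n * (c + 2) + 2 + (j * (c + 2) + 1 + k) by omega, W_right, blk_block c _ j k hk] at h3
      rw [← Lt.bit.inj h3, List.getElem?_reverse (by omega)] at h0
      rw [← h0]
      congr 1
      omega
    refine ⟨i, hin, j, hjn, fun k hk => ?_, ?_⟩
    · have h3 := ha2 k (by omega)
      have h4 := hb2 (c - k) (by omega)
      have e : c - (c - k) = k := by omega
      rw [e, h3] at h4
      have h5 := Option.some.inj h4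
      unfold ga gb at h5
      rw [if_pos hk, if_neg (by omega), e] at h5
      exact h5
    · have h3 := ha2 c (by omega)
      have h4 := hb2 0 (by omega)
      rw [Nat.sub_zero, h3] at h4
      have h5 := Option.some.inj h4
      unfold ga gb at h5
      rw [if_neg (lt_irrefl _), if_pos rfl] at h5
      exact h5
  · rintro ⟨i, hi, j, hj, hlab, hpq⟩
    obtain ⟨a, ha⟩ : ∃ a, a = i * (c + 2) := ⟨_, rfl⟩
    obtain ⟨b, hb⟩ : ∃ b, b = j * (c + 2) := ⟨_, rfl⟩
    have hia : a + (c + 2) ≤ n * (c + 2) := by
      have := Nat.mul_le_mul_right (c + 2) (Nat.succ_le_of_lt hi)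
      have e : (i + 1) * (c + 2) = i * (c + 2) + (c + 2) := by ring
      rw [Nat.succ_eq_add_one] at this
      omega
    have hjb : b + (c + 2) ≤ n * (c + 2) := by
      have := Nat.mul_le_mul_right (c + 2) (Nat.succ_le_of_lt hj)
      have e : (j + 1) * (c + 2) = j * (c + 2) + (c + 2) := by ring
      rw [Nat.succ_eq_add_one] at this
      omega
    obtain ⟨D, hD⟩ : ∃ D, D = n * (c + 2) + 2 := ⟨_, rfl⟩
    refine ⟨seg (W c n lam mu p q) 0 a, seg (W c n lam mu p q) (D + b + (c + 2) + 1)
      (2 * (n * (c + 2) + 1) + 1 - (D + b + (c + 2) + 1)),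
      seg (W c n lam mu p q) (a + (c + 2) + 1) (D + b - (a + (c + 2) + 1)),
      (List.range (c + 1)).map (ga c lam p i), ?_, ?_⟩
    · unfold seg
      rw [List.mem_map]
      refine ⟨n * (c + 2) + 1, ?_, W_dlr⟩
      rw [List.mem_range'_1]
      omega
    · have e1 : ((List.range (c + 1)).map (ga c lam p i)).map Lt.bit =
          seg (W c n lam mu p q) (a + 1) (c + 1) := by
        unfold seg
        rw [List.map_map, List.range'_eq_map_range, List.map_map]
        refine List.map_congr_left fun k hk => ?_
        rw [List.mem_range] at hk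
        show Lt.bit (ga c lam p i k) = W c n lam mu p q (a + 1 + k)
        rw [W_left (by omega), ha, blk_block c _ i k hk]
      have e2 : ((List.range (c + 1)).map (ga c lam p i)).reverse.map Lt.bit =
          seg (W c n lam mu p q) (D + b + 1) (c + 1) := by
        unfold seg
        refine List.ext_getElem (by simp) fun k h1 h2 => ?_
        simp only [List.length_map, List.length_range'] at h2
        rw [List.getElem_map, List.getElem_reverse, List.getElem_map, List.getElem_map,
          List.getElem_range']
        simp only [List.length_map, List.length_range, List.getElem_range]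
        rw [show D + b + 1 + 1 * k = n * (c + 2) + 2 + (j * (c + 2) + 1 + k) by omega, W_right,
          blk_block c _ j k h2]
        congr 1
        unfold ga gb
        by_cases hk : k = 0
        · rw [if_neg (by omega), if_pos hk, hpq]
        · rw [if_pos (by omega), if_neg hk, show c + 1 - 1 - k = c - k by omega]
          exact hlab _ (by omega)
      have h1 : W c n lam mu p q a = .hash := by
        rw [W_left (by omega), ha, blk_hash]
      have h2 : W c n lam mu p q (a + (c + 2)) = .hash := by
        rw [W_left (by omega), ha, show i * (c + 2) + (c + 2) = (i + 1) * (c + 2) by ring, blk_hash]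
      have h3 : W c n lam mu p q (D + b) = .hash := by
        rw [hD, hb, W_right, blk_hash]
      have h4 : W c n lam mu p q (D + b + (c + 2)) = .hash := by
        rw [show D + b + (c + 2) = n * (c + 2) + 2 + ((j + 1) * (c + 2)) by rw [hD, hb]; ring,
          W_right, blk_hash]
      rw [e1, e2]
      have s1 := seg_one h1
      have s2 := seg_one h2
      have s3 := seg_one h3
      have s4 := seg_one h4
      have e3 : ∀ (x y : List Lt) (z : Lt), x ++ z :: y = x ++ ([z] ++ y) := by
        intro x y z
        rfl
      rw [e3 (seg (W c n lam mu p q) 0 a), e3 (seg (W c n lam mu p q) (a + 1) (c + 1)),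
        e3 (seg (W c n lam mu p q) (a + (c + 2) + 1) (D + b - (a + (c + 2) + 1))),
        e3 (seg (W c n lam mu p q) (D + b + 1) (c + 1))]
      rw [← s4]
      rw [seg_append (f := W c n lam mu p q) (s := D + b + (c + 2)) (l := 1) rfl]
      rw [seg_append (f := W c n lam mu p q) (s := D + b + 1) (l := c + 1) (by omega)]
      rw [s4, ← s3]
      rw [seg_append (f := W c n lam mu p q) (s := D + b) (l := 1) rfl]
      rw [seg_append (f := W c n lam mu p q) (s := a + (c + 2) + 1) (by omega)]
      rw [s3, ← s2]
      rw [seg_append (f := W c n lam mu p q) (s := a + (c + 2)) (l := 1) rfl]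
      rw [seg_append (f := W c n lam mu p q) (s := a + 1) (l := c + 1) (by omega)]
      rw [s2, ← s1]
      rw [seg_append (f := W c n lam mu p q) (s := a) (l := 1) rfl]
      rw [seg_append (f := W c n lam mu p q) (s := 0) (l := a) (by omega)]
      unfold word
      congr 1
      omega

end

end Pool.Agent.H561R2.LN
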