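import Pool.Agent.H561R2.LN.Avg
import Pool.Agent.H561R2.LN.Word

/-!
# The lower bound for the linear language
-/

namespace Pool.Agent.H561R2.LN

open Finset Pool.Agent.H561R2.RO Pool.Agent.H561R2.NP

section

variable {c n : ℕ}

/-- Labels as functions of natural numbers. -/
def labN (lam : Fin n → Fin c → Bool) (i k : ℕ) : Bool :=
  if h : i < n ∧ k < c then lam ⟨i, h.1⟩ ⟨k, h.2⟩ else false

/-- Bits as functions of natural numbers. -/
def bitN (p : Fin n → Bool) (i : ℕ) : Bool := if h : i < n then p ⟨i, h⟩ else false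

/-- The position of a data bit. -/
def posN (c n : ℕ) : Fin n ⊕ Fin n → ℕ
  | .inl i => i.1 * (c + 2) + 1 + c
  | .inr j => n * (c + 2) + 2 + (j.1 * (c + 2) + 1)

theorem mul_lt (c : ℕ) (i : Fin n) : i.1 * (c + 2) + (c + 2) ≤ n * (c + 2) := by
  have := Nat.mul_le_mul_right (c + 2) (Nat.succ_le_of_lt i.2)
  have e : (i.1 + 1) * (c + 2) = i.1 * (c + 2) + (c + 2) := by ring
  rw [Nat.succ_eq_add_one] at this
  omega

theorem posN_lt (u : Fin n ⊕ Fin n) : posN c n u < 2 * (n * (c + 2) + 1) + 1 := by
  cases u with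
  | inl i =>
    have := mul_lt c i
    show i.1 * (c + 2) + 1 + c < _
    omega
  | inr j =>
    have := mul_lt c j
    show n * (c + 2) + 2 + (j.1 * (c + 2) + 1) < _
    omega

theorem posN_inj : Function.Injective (posN c n) := by
  intro u v h
  cases u with
  | inl i =>
    cases v with
    | inl i' =>
      have h1 : i.1 * (c + 2) + 1 + c = i'.1 * (c + 2) + 1 + c := h
      have h2 : i.1 * (c + 2) = i'.1 * (c + 2) := by omega
      rw [Fin.ext (Nat.eq_of_mul_eq_mul_right (by omega) h2)]
    | inr j =>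
      have h1 : i.1 * (c + 2) + 1 + c = n * (c + 2) + 2 + (j.1 * (c + 2) + 1) := h
      have := mul_lt c i
      omega
  | inr j =>
    cases v with
    | inl i' =>
      have h1 : n * (c + 2) + 2 + (j.1 * (c + 2) + 1) = i'.1 * (c + 2) + 1 + c := h
      have := mul_lt c i'
      omega
    | inr j' =>
      have h1 : n * (c + 2) + 2 + (j.1 * (c + 2) + 1) =
        n * (c + 2) + 2 + (j'.1 * (c + 2) + 1) := h
      have h2 : j.1 * (c + 2) = j'.1 * (c + 2) := by omega
      rw [Fin.ext (Nat.eq_of_mul_eq_mul_right (by omega) h2)]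

/-- The position of a data bit. -/
def pos (c n : ℕ) (u : Fin n ⊕ Fin n) : Fin (2 * (n * (c + 2) + 1) + 1) := ⟨posN c n u, posN_lt u⟩

open Classical in
/-- The partial inverse. -/
noncomputable def kap (c n : ℕ) (v : Fin (2 * (n * (c + 2) + 1) + 1)) : Option (Fin n ⊕ Fin n) :=
  if h : ∃ u, pos c n u = v then some h.choose else none

theorem kap_some {v : Fin (2 * (n * (c + 2) + 1) + 1)} {u : Fin n ⊕ Fin n}
    (h : kap c n v = some u) : pos c n u = v := by
  unfold kap at h
  split_ifs at h with h1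
  rw [← Option.some.inj h]
  exact h1.choose_spec

theorem kap_none {v : Fin (2 * (n * (c + 2) + 1) + 1)} (h : kap c n v = none) (u : Fin n ⊕ Fin n) :
    posN c n u ≠ v.1 := by
  intro hu
  unfold kap at h
  rw [dif_pos ⟨u, Fin.ext hu⟩] at h
  exact absurd h (by simp)

/-- The word as a function of the position. -/
def WF (lam mu : Fin n → Fin c → Bool) (f : Fin n ⊕ Fin n → Bool)
    (v : Fin (2 * (n * (c + 2) + 1) + 1)) : Lt :=
  W c n (labN lam) (labN mu) (bitN fun i => f (.inl i)) (bitN fun j => f (.inr j)) v.1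

theorem W_pos (lam mu : ℕ → ℕ → Bool) (f : Fin n ⊕ Fin n → Bool) (u : Fin n ⊕ Fin n) :
    W c n lam mu (bitN fun i => f (.inl i)) (bitN fun j => f (.inr j)) (posN c n u) =
      .bit (f u) := by
  cases u with
  | inl i =>
    have := mul_lt c i
    show W c n lam mu _ _ (i.1 * (c + 2) + 1 + c) = _
    rw [W_left (by omega), blk_block c _ i.1 c (by omega)]
    congr 1
    unfold ga bitN
    rw [if_neg (lt_irrefl _), dif_pos i.2]
  | inr j =>
    show W c n lam mu _ _ (n * (c + 2) + 2 + (j.1 * (c + 2) + 1)) = _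
    rw [W_right]
    have := blk_block c (gb c mu (bitN fun j => f (.inr j))) j.1 0 (by omega)
    rw [add_zero] at this
    rw [this]
    congr 1
    unfold gb bitN
    rw [if_pos rfl, dif_pos j.2]

theorem W_base (lam mu : ℕ → ℕ → Bool) (p q p' q' : ℕ → Bool) {P : ℕ}
    (hP : ∀ u, posN c n u ≠ P) (hlt : P < 2 * (n * (c + 2) + 1) + 1) :
    W c n lam mu p q P = W c n lam mu p' q' P := by
  have hdm := Nat.div_add_mod
  unfold W
  by_cases h1 : P < n * (c + 2) + 1
  · rw [if_pos h1, if_pos h1]
    unfold blk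
    by_cases h2 : P % (c + 2) = 0
    · rw [if_pos h2, if_pos h2]
    · rw [if_neg h2, if_neg h2]
      congr 1
      unfold ga
      by_cases h3 : P % (c + 2) - 1 < c
      · rw [if_pos h3, if_pos h3]
      · exfalso
        have h4 := Nat.mod_lt P (show c + 2 > 0 by omega)
        have h5 := hdm P (c + 2)
        have h6 : P / (c + 2) < n := by
          rw [Nat.div_lt_iff_lt_mul (by omega)]
          by_contra h7
          have h8 : P = n * (c + 2) := by omega
          rw [h8, Nat.mul_mod_left] at h2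
          exact h2 rfl
        refine hP (.inl ⟨P / (c + 2), h6⟩) ?_
        show P / (c + 2) * (c + 2) + 1 + c = P
        rw [Nat.mul_comm]
        omega
  · rw [if_neg h1, if_neg h1]
    by_cases h2 : P = n * (c + 2) + 1
    · rw [if_pos h2, if_pos h2]
    · rw [if_neg h2, if_neg h2]
      obtain ⟨Q, hQ⟩ : ∃ Q, P = n * (c + 2) + 2 + Q := ⟨P - (n * (c + 2) + 2), by omega⟩
      have hQ' : P - (n * (c + 2) + 2) = Q := by omega
      rw [hQ']
      unfold blk
      by_cases h3 : Q % (c + 2) = 0
      · rw [if_pos h3, if_pos h3]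
      · rw [if_neg h3, if_neg h3]
        congr 1
        unfold gb
        by_cases h4 : Q % (c + 2) - 1 = 0
        · exfalso
          have h5 := hdm Q (c + 2)
          have h6 : Q / (c + 2) < n := by
            rw [Nat.div_lt_iff_lt_mul (by omega)]
            by_contra h7
            have h8 : Q = n * (c + 2) := by omega
            rw [h8, Nat.mul_mod_left] at h3
            exact h3 rfl
          refine hP (.inr ⟨Q / (c + 2), h6⟩) ?_
          show n * (c + 2) + 2 + (Q / (c + 2) * (c + 2) + 1) = P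
          rw [Nat.mul_comm (Q / (c + 2))]
          omega
        · rw [if_neg h4, if_neg h4]

theorem ext2_eq (lam mu : Fin n → Fin c → Bool) (f : Fin n ⊕ Fin n → Bool) :
    ext2 (kap c n) (WF lam mu fun _ => false) Lt.bit f = WF lam mu f := by
  funext v
  unfold ext2
  cases hκ : kap c n v with
  | none =>
    exact W_base _ _ _ _ _ _ (fun u => kap_none hκ u) v.2
  | some u =>
    have h1 := kap_some hκ
    subst h1
    exact (W_pos _ _ f u).symm

theorem ofFn_WF (lam mu : Fin n → Fin c → Bool) (f : Fin n ⊕ Fin n → Bool) :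
    List.ofFn (WF lam mu f) = word c n (labN lam) (labN mu) (bitN fun i => f (.inl i))
      (bitN fun j => f (.inr j)) := by
  unfold word seg
  refine List.ext_getElem (by simp; omega) fun k h1 h2 => ?_
  rw [List.getElem_ofFn, List.getElem_map, List.getElem_range']
  simp [WF]

theorem WF_mem (lam mu : Fin n → Fin c → Bool) (f : Fin n ⊕ Fin n → Bool) :
    List.ofFn (WF lam mu f) ∈ gram.language ↔ ∃ i j, lam i = mu j ∧ f (.inl i) = f (.inr j) := by
  rw [ofFn_WF, mem_word]
  constructor
  · rintro ⟨i, hi, j, hj, h1, h2⟩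
    refine ⟨⟨i, hi⟩, ⟨j, hj⟩, ?_, ?_⟩
    · funext k
      have := h1 k.1 k.2
      unfold labN at this
      rw [dif_pos ⟨hi, k.2⟩, dif_pos ⟨hj, k.2⟩] at this
      exact this
    · unfold bitN at h2
      rw [dif_pos hi, dif_pos hj] at h2
      exact h2
  · rintro ⟨i, j, h1, h2⟩
    refine ⟨i.1, i.2, j.1, j.2, fun k hk => ?_, ?_⟩
    · unfold labN
      rw [dif_pos ⟨i.2, hk⟩, dif_pos ⟨j.2, hk⟩]
      exact congrFun h1 ⟨k, hk⟩
    · unfold bitN
      rw [dif_pos i.2, dif_pos j.2]
      exact h2

end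

/-- **The lower bound.** -/
theorem lower {c S : ℕ} (C : Circ (Fin (2 * (64 * 2 ^ c * (c + 2) + 1) + 1)) Lt S) (r : Fin S)
    (hleaf : C.LeafLE (36 * 2 ^ c)) (hC : ∀ w, C.Acc w r ↔ List.ofFn w ∉ gram.language) :
    2 ^ 2 ^ c ≤ S ^ 2 := by
  have hcard : Fintype.card (Fin c → Bool) = 2 ^ c := by
    rw [Fintype.card_fun, Fintype.card_bool, Fintype.card_fin]
  refine avg_bound (n := 64 * 2 ^ c) (K := 2 ^ c) (Lab := Fin c → Bool) hcard.symm (by positivity) rfl
    (Fintype.equivFinOfCardEq hcard).symm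
    (fun h => pull (pos c (64 * 2 ^ c)) (C.scope h))
    (fun lam mu => restr2 C (pos c (64 * 2 ^ c)) (kap c (64 * 2 ^ c)) (WF lam mu fun _ => false)
      Lt.bit fun v u h => kap_some h) r (fun _ _ _ => rfl) (fun lam mu => ?_) (fun lam mu f => ?_)
  · refine restr2_leafLE fun g B φ hG => ?_
    have h1 := hleaf g B φ hG
    have h2 : (pull (pos c (64 * 2 ^ c)) B).card ≤ B.card := by
      refine Finset.card_le_card_of_injOn (pos c (64 * 2 ^ c)) ?_ ?_
      · intro u hu
        unfold pull at hu
        rw [Finset.mem_coe, Finset.mem_filter] at hu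
        exact hu.2
      · intro u _ v _ h
        exact posN_inj (congrArg Fin.val h)
    omega
  · rw [restr2_acc, ext2_eq, hC, WF_mem]
    push Not
    rfl

end Pool.Agent.H561R2.LN
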