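import Mathlib

/-!
# Linear context-free grammars
-/

namespace Pool.Agent.H561R2.LN

/-- A context-free grammar is linear if every rule has the form `A → u B v` or `A → u`, where `B` is
a nonterminal and `u` and `v` are words of terminals. -/
def IsLinear {T : Type} (g : ContextFreeGrammar T) : Prop :=
  ∀ r ∈ g.rules, (∃ (u v : List T) (X : g.NT),
    r.output = u.map Symbol.terminal ++ Symbol.nonterminal X :: v.map Symbol.terminal) ∨
    ∃ u : List T, r.output = u.map Symbol.terminal

end Pool.Agent.H561R2.LN
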