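import Pool.Agent.H561R2.CF.Grammar
import Pool.Agent.H561R2.LN.GramDefs

/-!
# The linear language
-/

namespace Pool.Agent.H561R2.LN

open Pool.Agent.H561R2.CF

/-- The letters. -/
inductive Lt : Type
  | bit (b : Bool)
  | hash
  | dlr
  deriving DecidableEq

/-- All letters. -/
def letters : List Lt := [.bit true, .bit false, .hash, .dlr]

theorem mem_letters (a : Lt) : a ∈ letters := by
  cases a with
  | bit b => cases b <;> decide
  | _ => decide

/-- The nonterminals. -/
inductive NT : Type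
  | S | A | B
  deriving DecidableEq

/-- The words generated by the nonterminals. -/
inductive Y : NT → List Lt → Prop
  | s1 {a : Lt} {u : List Lt} : Y .S u → Y .S (a :: u)
  | s2 {a : Lt} {u : List Lt} : Y .S u → Y .S (u ++ [a])
  | s3 {u : List Lt} : Y .A u → Y .S (.hash :: (u ++ [.hash]))
  | a1 {b : Bool} {u : List Lt} : Y .A u → Y .A (.bit b :: (u ++ [.bit b]))
  | a2 {u : List Lt} : Y .B u → Y .A (.hash :: (u ++ [.hash]))
  | b1 {a : Lt} {u : List Lt} : Y .B u → Y .B (a :: u)
  | b2 {a : Lt} {u : List Lt} : Y .B u → Y .B (u ++ [a])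
  | b3 : Y .B [.dlr]

/-- The rules. -/
def ruleList : List (ContextFreeRule Lt NT) :=
  [⟨.S, [.terminal .hash, .nonterminal .A, .terminal .hash]⟩,
    ⟨.A, [.terminal .hash, .nonterminal .B, .terminal .hash]⟩,
    ⟨.B, [.terminal .dlr]⟩] ++
  letters.map (fun a => ⟨.S, [.terminal a, .nonterminal .S]⟩) ++
  letters.map (fun a => ⟨.S, [.nonterminal .S, .terminal a]⟩) ++
  letters.map (fun a => ⟨.B, [.terminal a, .nonterminal .B]⟩) ++
  letters.map (fun a => ⟨.B, [.nonterminal .B, .terminal a]⟩) ++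
  [true, false].map (fun b => ⟨.A, [.terminal (.bit b), .nonterminal .A, .terminal (.bit b)]⟩)

/-- The grammar. -/
def gram : ContextFreeGrammar Lt where
  NT := NT
  initial := .S
  rules := ruleList.toFinset

/-- The words described by a sentential form. -/
def YL : List (Symbol Lt NT) → List Lt → Prop
  | [], w => w = []
  | .terminal a :: s, w => ∃ w', w = a :: w' ∧ YL s w'
  | .nonterminal X :: s, w => ∃ u v, w = u ++ v ∧ Y X u ∧ YL s v

theorem rule_cases {r : ContextFreeRule Lt NT} (hr : r ∈ ruleList) :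
    r = ⟨.S, [.terminal .hash, .nonterminal .A, .terminal .hash]⟩ ∨
    r = ⟨.A, [.terminal .hash, .nonterminal .B, .terminal .hash]⟩ ∨
    r = ⟨.B, [.terminal .dlr]⟩ ∨
    (∃ a, r = ⟨.S, [.terminal a, .nonterminal .S]⟩) ∨
    (∃ a, r = ⟨.S, [.nonterminal .S, .terminal a]⟩) ∨
    (∃ a, r = ⟨.B, [.terminal a, .nonterminal .B]⟩) ∨
    (∃ a, r = ⟨.B, [.nonterminal .B, .terminal a]⟩) ∨
    ∃ b, r = ⟨.A, [.terminal (.bit b), .nonterminal .A, .terminal (.bit b)]⟩ := by
  unfold ruleList at hr
  simp only [List.mem_append, List.mem_cons, List.mem_map, List.not_mem_nil, or_false] at hr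
  rcases hr with ((((hr | hr) | hr) | hr) | hr) | hr
  · rcases hr with rfl | rfl | rfl <;> simp
  · obtain ⟨a, -, rfl⟩ := hr
    simp
  · obtain ⟨a, -, rfl⟩ := hr
    simp
  · obtain ⟨a, -, rfl⟩ := hr
    simp
  · obtain ⟨a, -, rfl⟩ := hr
    simp
  · obtain ⟨a, -, rfl⟩ := hr
    simp

theorem rule_sound {r : ContextFreeRule Lt NT} (hr : r ∈ ruleList) {u : List Lt}
    (h : YL r.output u) : Y r.input u := by
  rcases rule_cases hr with rfl | rfl | rfl | ⟨a, rfl⟩ | ⟨a, rfl⟩ | ⟨a, rfl⟩ | ⟨a, rfl⟩ | ⟨b, rfl⟩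
  · obtain ⟨_, rfl, b, c, rfl, h1, _, rfl, rfl⟩ := h
    exact .s3 h1
  · obtain ⟨_, rfl, b, c, rfl, h1, _, rfl, rfl⟩ := h
    exact .a2 h1
  · obtain ⟨_, rfl, rfl⟩ := h
    exact .b3
  · obtain ⟨_, rfl, b, c, rfl, h1, rfl⟩ := h
    rw [List.append_nil]
    exact .s1 h1
  · obtain ⟨b, c, rfl, h1, _, rfl, rfl⟩ := h
    exact .s2 h1
  · obtain ⟨_, rfl, b, c, rfl, h1, rfl⟩ := h
    rw [List.append_nil]
    exact .b1 h1
  · obtain ⟨b, c, rfl, h1, _, rfl, rfl⟩ := h
    exact .b2 h1
  · obtain ⟨_, rfl, b, c, rfl, h1, _, rfl, rfl⟩ := h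
    exact .a1 h1

theorem YL_of_yd {s : List (Symbol Lt NT)} {w : List Lt} (h : Yd ruleList.toFinset s w) :
    YL s w := by
  induction h with
  | nil => exact rfl
  | term _ ih => exact ⟨_, rfl, ih⟩
  | nt hr _ _ ih1 ih2 => exact ⟨_, _, rfl, rule_sound (List.mem_toFinset.1 hr) ih1, ih2⟩

theorem yd_rule {X : NT} {s : List (Symbol Lt NT)} {u : List Lt}
    (hr : (⟨X, s⟩ : ContextFreeRule Lt NT) ∈ ruleList) (h : Yd ruleList.toFinset s u) :
    Yd ruleList.toFinset [.nonterminal X] u := by
  have := Yd.nt (r := ⟨X, s⟩) (List.mem_toFinset.2 hr) h .nil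
  rw [List.append_nil] at this
  exact this

theorem Y.yd {X : NT} {w : List Lt} (h : Y X w) :
    Yd ruleList.toFinset [.nonterminal X] w := by
  induction h with
  | @s1 a u _ h1 =>
    exact yd_rule (s := [.terminal a, .nonterminal .S]) (by simp [ruleList, mem_letters]) (.term h1)
  | @s2 a u _ h1 =>
    exact yd_rule (s := [.nonterminal .S, .terminal a]) (by simp [ruleList, mem_letters])
      (h1.append (.term .nil))
  | s3 _ h1 =>
    exact yd_rule (s := [.terminal .hash, .nonterminal .A, .terminal .hash]) (by simp [ruleList])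
      (.term (h1.append (.term .nil)))
  | @a1 b u _ h1 =>
    exact yd_rule (s := [.terminal (.bit b), .nonterminal .A, .terminal (.bit b)])
      (by cases b <;> simp [ruleList]) (.term (h1.append (.term .nil)))
  | a2 _ h1 =>
    exact yd_rule (s := [.terminal .hash, .nonterminal .B, .terminal .hash]) (by simp [ruleList])
      (.term (h1.append (.term .nil)))
  | @b1 a u _ h1 =>
    exact yd_rule (s := [.terminal a, .nonterminal .B]) (by simp [ruleList, mem_letters]) (.term h1)
  | @b2 a u _ h1 =>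
    exact yd_rule (s := [.nonterminal .B, .terminal a]) (by simp [ruleList, mem_letters])
      (h1.append (.term .nil))
  | b3 => exact yd_rule (s := [.terminal .dlr]) (by simp [ruleList]) (.term .nil)

theorem gram_linear : IsLinear gram := by
  intro r hr
  rcases rule_cases (List.mem_toFinset.1 hr) with rfl | rfl | rfl | ⟨a, rfl⟩ | ⟨a, rfl⟩ | ⟨a, rfl⟩ |
    ⟨a, rfl⟩ | ⟨b, rfl⟩
  · exact Or.inl ⟨[.hash], [.hash], NT.A, rfl⟩
  · exact Or.inl ⟨[.hash], [.hash], NT.B, rfl⟩
  · exact Or.inr ⟨[.dlr], rfl⟩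
  · exact Or.inl ⟨[a], [], NT.S, rfl⟩
  · exact Or.inl ⟨[], [a], NT.S, rfl⟩
  · exact Or.inl ⟨[a], [], NT.B, rfl⟩
  · exact Or.inl ⟨[], [a], NT.B, rfl⟩
  · exact Or.inl ⟨[.bit b], [.bit b], NT.A, rfl⟩

theorem mem_iff_Y {w : List Lt} : w ∈ gram.language ↔ Y .S w := by
  rw [ContextFreeGrammar.mem_language_iff, yd_iff]
  constructor
  · intro h
    obtain ⟨u, v, rfl, h1, h2⟩ := YL_of_yd h
    have : v = [] := h2
    subst this
    rw [List.append_nil]
    exact h1
  · intro h
    exact h.yd

theorem Y.left {u : List Lt} (h : Y .S u) : ∀ x : List Lt, Y .S (x ++ u) := by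
  intro x
  induction x with
  | nil => exact h
  | cons a x ih => exact .s1 ih

theorem Y.right {u : List Lt} (h : Y .S u) : ∀ x : List Lt, Y .S (u ++ x) := by
  intro x
  induction x using List.reverseRecOn with
  | nil => rwa [List.append_nil]
  | append_singleton x a ih =>
    rw [← List.append_assoc]
    exact .s2 ih

theorem Y_B {u : List Lt} : .dlr ∈ u → Y .B u := by
  induction u with
  | nil => intro h; simp at h
  | cons a u ih =>
    intro h
    by_cases hu : .dlr ∈ u
    · exact .b1 (ih hu)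
    · have ha : a = .dlr := by
        rcases List.mem_cons.1 h with h | h
        · exact h.symm
        · exact absurd h hu
      subst ha
      clear ih h hu
      induction u using List.reverseRecOn with
      | nil => exact .b3
      | append_singleton x a ih => exact .b2 (u := .dlr :: x) ih

theorem Y_A (v : List Lt) (hv : .dlr ∈ v) : ∀ α : List Bool,
    Y .A (α.map .bit ++ (.hash :: (v ++ .hash :: α.reverse.map .bit))) := by
  intro α
  induction α with
  | nil => exact .a2 (Y_B hv)
  | cons b α ih =>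
    have := Y.a1 (b := b) ih
    simpa using this

/-- The shape of the words of the language. -/
theorem mem_iff {w : List Lt} : w ∈ gram.language ↔ ∃ (x t v : List Lt) (α : List Bool),
    .dlr ∈ v ∧ w = x ++ .hash :: (α.map .bit ++ .hash :: (v ++ .hash ::
      (α.reverse.map .bit ++ .hash :: t))) := by
  rw [mem_iff_Y]
  constructor
  · intro h
    have key : ∀ (X : NT) (w : List Lt), Y X w → (match X with
        | .S => ∃ (x t v : List Lt) (α : List Bool), .dlr ∈ v ∧
          w = x ++ .hash :: (α.map .bit ++ .hash :: (v ++ .hash ::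
            (α.reverse.map .bit ++ .hash :: t)))
        | .A => ∃ (v : List Lt) (α : List Bool), .dlr ∈ v ∧
          w = α.map .bit ++ .hash :: (v ++ .hash :: α.reverse.map .bit)
        | .B => .dlr ∈ w) := by
      intro X w h
      induction h with
      | @s1 a u _ ih =>
        obtain ⟨x, t, v, α, h1, rfl⟩ := ih
        exact ⟨a :: x, t, v, α, h1, rfl⟩
      | @s2 a u _ ih =>
        obtain ⟨x, t, v, α, h1, rfl⟩ := ih
        exact ⟨x, t ++ [a], v, α, h1, by simp⟩
      | s3 _ ih =>
        obtain ⟨v, α, h1, rfl⟩ := ih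
        exact ⟨[], [], v, α, h1, by simp⟩
      | @a1 b u _ ih =>
        obtain ⟨v, α, h1, rfl⟩ := ih
        exact ⟨v, b :: α, h1, by simp⟩
      | @a2 u _ ih => exact ⟨u, [], ih, by simp⟩
      | b1 _ ih => exact List.mem_cons_of_mem _ ih
      | b2 _ ih => exact List.mem_append_left _ ih
      | b3 => exact List.mem_cons_self
    exact key .S w h
  · rintro ⟨x, t, v, α, hv, rfl⟩
    have h1 := Y.s3 (Y_A v hv α)
    have h2 := (h1.right t).left x
    have e : x ++ .hash :: (α.map .bit ++ .hash :: (v ++ .hash ::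
        (α.reverse.map .bit ++ .hash :: t))) =
        x ++ (.hash :: (α.map .bit ++ (.hash :: (v ++ .hash :: α.reverse.map .bit)) ++ [.hash]) ++
          t) := by
      simp
    rw [e]
    exact h2

end Pool.Agent.H561R2.LN
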