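import Pool.Agent.H561R2.LN.Through

/-!
# Random labels
-/

namespace Pool.Agent.H561R2.LN

open Finset

variable {n : ℕ} {Lab : Type} [DecidableEq Lab] [Fintype Lab]

theorem sum_unhit (A : Finset (Fin n)) (hL : 0 < Fintype.card Lab)
    (hA : 8 * Fintype.card Lab ≤ A.card) :
    ∑ lam : Fin n → Lab, (2 : ℝ) ^ (unhit lam A).card ≤
      (Fintype.card Lab : ℝ) ^ n * (257 / 256) ^ Fintype.card Lab := by
  obtain ⟨K, hK⟩ : ∃ K, K = Fintype.card Lab := ⟨_, rfl⟩
  rw [← hK] at hL hA ⊢
  have h1 : ∀ lam : Fin n → Lab, (2 : ℝ) ^ (unhit lam A).card =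
      ∑ Z : Finset Lab, if Z ⊆ unhit lam A then 1 else 0 := by
    intro lam
    rw [← Finset.sum_filter, Finset.sum_const, nsmul_eq_mul, mul_one]
    have : (univ.filter fun Z : Finset Lab => Z ⊆ unhit lam A) = (unhit lam A).powerset := by
      ext Z
      simp
    rw [this, Finset.card_powerset]
    push_cast
    rfl
  simp only [h1]
  rw [Finset.sum_comm]
  have h2 : ∀ Z : Finset Lab, ∑ lam : Fin n → Lab, (if Z ⊆ unhit lam A then (1 : ℝ) else 0) =
      ((K - Z.card : ℕ) : ℝ) ^ A.card * (K : ℝ) ^ (n - A.card) := by
    intro Z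
    rw [← Finset.sum_filter, Finset.sum_const, nsmul_eq_mul, mul_one]
    have e : (univ.filter fun lam : Fin n → Lab => Z ⊆ unhit lam A) =
        Fintype.piFinset fun i => if i ∈ A then Zᶜ else univ := by
      ext lam
      rw [Finset.mem_filter, Fintype.mem_piFinset]
      constructor
      · rintro ⟨-, h⟩ i
        by_cases hi : i ∈ A
        · rw [if_pos hi, Finset.mem_compl]
          intro hz
          have := h hz
          unfold unhit at this
          rw [Finset.mem_filter] at this
          exact this.2 i hi rfl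
        · rw [if_neg hi]
          exact Finset.mem_univ _
      · intro h
        refine ⟨Finset.mem_univ _, fun x hx => ?_⟩
        unfold unhit
        rw [Finset.mem_filter]
        refine ⟨Finset.mem_univ _, fun i hi hx' => ?_⟩
        have := h i
        rw [if_pos hi, Finset.mem_compl, hx'] at this
        exact this hx
    rw [e, Fintype.card_piFinset]
    have e2 : ∀ i : Fin n, (if i ∈ A then Zᶜ else (univ : Finset Lab)).card =
        if i ∈ A then (K - Z.card) else K := by
      intro i
      split_ifs
      · rw [Finset.card_compl, ← hK]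
      · rw [Finset.card_univ, ← hK]
    rw [Finset.prod_congr rfl fun i _ => e2 i, Finset.prod_ite, Finset.prod_const,
      Finset.prod_const]
    have e3 : (univ.filter fun i : Fin n => i ∈ A).card = A.card := by
      congr 1
      ext i
      simp
    have e4 : (univ.filter fun i : Fin n => ¬i ∈ A).card = n - A.card := by
      have : (univ.filter fun i : Fin n => ¬i ∈ A) = Aᶜ := by
        ext i
        simp
      rw [this, Finset.card_compl, Fintype.card_fin]
    rw [e3, e4]
    push_cast
    rfl
  have hAn : A.card ≤ n := by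
    have := Finset.card_le_univ A
    rwa [Fintype.card_fin] at this
  have hKpos : (0 : ℝ) < K := by exact_mod_cast hL
  have h3 : ∀ Z : Finset Lab, ((K - Z.card : ℕ) : ℝ) ^ A.card * (K : ℝ) ^ (n - A.card) ≤
      (K : ℝ) ^ n * (1 / 256) ^ Z.card := by
    intro Z
    have hZ : Z.card ≤ K := by
      rw [hK]
      exact Finset.card_le_univ Z
    have h4 : ((K - Z.card : ℕ) : ℝ) ≤ K * Real.exp (-(Z.card / K)) := by
      rw [Nat.cast_sub hZ]
      have := Real.add_one_le_exp (-((Z.card : ℝ) / K))
      calc (K : ℝ) - Z.card = K * (-((Z.card : ℝ) / K) + 1) := by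
            field_simp
            ring
        _ ≤ _ := mul_le_mul_of_nonneg_left this hKpos.le
    have h5 : Real.exp (-((Z.card : ℝ) / K)) ^ A.card ≤ (1 / 256) ^ Z.card := by
      have h6 : Real.exp (-1) ≤ 1 / 2 := by
        rw [Real.exp_neg, inv_le_comm₀ (Real.exp_pos _) (by norm_num)]
        have := Real.add_one_le_exp (1 : ℝ)
        norm_num at this ⊢
        linarith
      calc Real.exp (-((Z.card : ℝ) / K)) ^ A.card ≤
            Real.exp (-((Z.card : ℝ) / K)) ^ (8 * K) := by
            refine pow_le_pow_of_le_one (Real.exp_pos _).le ?_ hA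
            rw [Real.exp_le_one_iff]
            have : (0 : ℝ) ≤ Z.card / K := by positivity
            linarith
        _ = Real.exp (-1) ^ (8 * Z.card) := by
            rw [← Real.exp_nat_mul, ← Real.exp_nat_mul]
            congr 1
            push_cast
            field_simp
        _ ≤ (1 / 2) ^ (8 * Z.card) := pow_le_pow_left₀ (Real.exp_pos _).le h6 _
        _ = _ := by
            rw [pow_mul]
            norm_num
    calc ((K - Z.card : ℕ) : ℝ) ^ A.card * (K : ℝ) ^ (n - A.card) ≤
          (K * Real.exp (-(Z.card / K))) ^ A.card * (K : ℝ) ^ (n - A.card) :=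
          mul_le_mul_of_nonneg_right (pow_le_pow_left₀ (by positivity) h4 _) (by positivity)
      _ = (K ^ A.card * K ^ (n - A.card)) * Real.exp (-(Z.card / K)) ^ A.card := by
          rw [mul_pow]
          ring
      _ = (K : ℝ) ^ n * Real.exp (-(Z.card / K)) ^ A.card := by
          rw [← pow_add]
          congr 2
          omega
      _ ≤ _ := mul_le_mul_of_nonneg_left h5 (by positivity)
  calc ∑ Z : Finset Lab, ∑ lam : Fin n → Lab, (if Z ⊆ unhit lam A then (1 : ℝ) else 0) ≤
        ∑ Z : Finset Lab, (K : ℝ) ^ n * (1 / 256) ^ Z.card :=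
        Finset.sum_le_sum fun Z _ => by rw [h2 Z]; exact h3 Z
    _ = (K : ℝ) ^ n * (257 / 256) ^ K := by
        rw [← Finset.mul_sum]
        congr 1
        have := Fintype.sum_pow_mul_eq_add_pow Lab (1 / 256 : ℝ) 1
        rw [← hK] at this
        simp only [one_pow, mul_one] at this
        rw [this]
        norm_num

end Pool.Agent.H561R2.LN
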