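import Pool.Agent.H561R2.NP.Restr
import Pool.Agent.H561R2.RO.Cut

/-!
# Restricting a decomposable circuit to a subset of the positions (larger alphabet)
-/

namespace Pool.Agent.H561R2.LN

open Finset Pool.Agent.H561R2.RO Pool.Agent.H561R2.NP

variable {Λ Λ' A : Type} [DecidableEq Λ] [DecidableEq Λ'] [Fintype Λ'] {S : ℕ}

/-- Extension by constant letters; `κ` is a partial inverse of the embedding of the positions. -/
def ext2 (κ : Λ → Option Λ') (base : Λ → A) (enc : Bool → A) (f : Λ' → Bool) (v : Λ) : A :=
  match κ v with
  | some u => enc (f u)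
  | none => base v

/-- The restriction of a gate. -/
def rgate2 (ι : Λ' → Λ) (κ : Λ → Option Λ') (base : Λ → A) (enc : Bool → A) :
    Gate Λ A S → Gate Λ' Bool S
  | .leaf B φ => .leaf (pull ι B) fun f => φ (ext2 κ base enc f)
  | .and i j => .and i j
  | .or i j => .or i j
  | .dec v ch =>
    match κ v with
    | some u => .dec u fun b => ch (enc b)
    | none => .or (ch (base v)) (ch (base v))

/-- The restriction of a circuit. -/
def restr2 (C : Circ Λ A S) (ι : Λ' → Λ) (κ : Λ → Option Λ') (base : Λ → A) (enc : Bool → A)
    (h2 : ∀ v u, κ v = some u → ι u = v) : Circ Λ' Bool S where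
  gate g := rgate2 ι κ base enc (C.gate g)
  scope g := pull ι (C.scope g)
  ok := by
    intro g
    have hok := C.ok g
    have hsub : ∀ {B B' : Finset Λ}, B ⊆ B' → pull ι B ⊆ pull ι B' := by
      intro B B' hB u hu
      unfold pull at hu ⊢
      rw [Finset.mem_filter] at hu ⊢
      exact ⟨hu.1, hB hu.2⟩
    cases hG : C.gate g with
    | leaf B φ =>
      rw [hG] at hok
      refine ⟨hsub hok.1, fun a a' haa => hok.2 _ _ fun v hv => ?_⟩
      unfold ext2
      cases hκ : κ v with
      | none => rfl
      | some u =>
        refine congrArg enc (haa u ?_)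
        unfold pull
        rw [Finset.mem_filter]
        exact ⟨Finset.mem_univ _, by rw [h2 v u hκ]; exact hv⟩
    | and i j =>
      rw [hG] at hok
      obtain ⟨o1, o2, o3, o4, o5⟩ := hok
      refine ⟨o1, o2, hsub o3, hsub o4, ?_⟩
      refine Finset.disjoint_left.2 fun u hu hu' => ?_
      unfold pull at hu hu'
      rw [Finset.mem_filter] at hu hu'
      exact Finset.disjoint_left.1 o5 hu.2 hu'.2
    | or i j =>
      rw [hG] at hok
      obtain ⟨o1, o2, o3, o4⟩ := hok
      exact ⟨o1, o2, hsub o3, hsub o4⟩
    | dec v ch =>
      rw [hG] at hok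
      obtain ⟨o1, o2⟩ := hok
      simp only [rgate2]
      cases hκ : κ v with
      | none =>
        exact ⟨(o2 _).1, (o2 _).1, hsub (o2 _).2.1, hsub (o2 _).2.1⟩
      | some u =>
        refine ⟨?_, fun c => ⟨(o2 _).1, hsub (o2 _).2.1, fun h => (o2 (enc c)).2.2 ?_⟩⟩
        · unfold pull
          rw [Finset.mem_filter]
          exact ⟨Finset.mem_univ _, by rw [h2 v u hκ]; exact o1⟩
        · unfold pull at h
          rw [Finset.mem_filter] at h
          rw [← h2 v u hκ]
          exact h.2

variable {C : Circ Λ A S} {ι : Λ' → Λ} {κ : Λ → Option Λ'} {base : Λ → A} {enc : Bool → A}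
  {h2 : ∀ v u, κ v = some u → ι u = v}

omit [DecidableEq Λ'] in
theorem restr2_leafLE {b : ℕ} (h : ∀ g B φ, C.gate g = .leaf B φ → (pull ι B).card ≤ b) :
    (restr2 C ι κ base enc h2).LeafLE b := by
  intro g B φ hg
  have hg' : rgate2 ι κ base enc (C.gate g) = .leaf B φ := hg
  cases hG : C.gate g with
  | leaf B' φ' =>
    rw [hG] at hg'
    simp only [rgate2, Gate.leaf.injEq] at hg'
    obtain ⟨rfl, -⟩ := hg'
    exact h g _ _ hG
  | and i j => rw [hG] at hg'; simp [rgate2] at hg'
  | or i j => rw [hG] at hg'; simp [rgate2] at hg'
  | dec v ch =>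
    rw [hG] at hg'
    simp only [rgate2] at hg'
    cases hκ : κ v with
    | none => rw [hκ] at hg'; simp at hg'
    | some u => rw [hκ] at hg'; simp at hg'

omit [DecidableEq Λ'] in
theorem restr2_acc {f : Λ' → Bool} {g : Fin S} :
    (restr2 C ι κ base enc h2).Acc f g ↔ C.Acc (ext2 κ base enc f) g := by
  constructor
  · intro h
    induction h with
    | @leaf g B φ h1 h3 =>
      have hg' : rgate2 ι κ base enc (C.gate g) = .leaf B φ := h1
      cases hG : C.gate g with
      | leaf B' φ' =>
        rw [hG] at hg'
        simp only [rgate2, Gate.leaf.injEq] at hg'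
        obtain ⟨rfl, rfl⟩ := hg'
        exact .leaf hG h3
      | and i j => rw [hG] at hg'; simp [rgate2] at hg'
      | or i j => rw [hG] at hg'; simp [rgate2] at hg'
      | dec v ch =>
        rw [hG] at hg'
        simp only [rgate2] at hg'
        cases hκ : κ v with
        | none => rw [hκ] at hg'; simp at hg'
        | some u => rw [hκ] at hg'; simp at hg'
    | @and g i j h1 _ _ i1 i2 =>
      have hg' : rgate2 ι κ base enc (C.gate g) = .and i j := h1
      cases hG : C.gate g with
      | leaf B' φ' => rw [hG] at hg'; simp [rgate2] at hg'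
      | and i' j' =>
        rw [hG] at hg'
        simp only [rgate2, Gate.and.injEq] at hg'
        obtain ⟨rfl, rfl⟩ := hg'
        exact .and hG i1 i2
      | or i j => rw [hG] at hg'; simp [rgate2] at hg'
      | dec v ch =>
        rw [hG] at hg'
        simp only [rgate2] at hg'
        cases hκ : κ v with
        | none => rw [hκ] at hg'; simp at hg'
        | some u => rw [hκ] at hg'; simp at hg'
    | @left g i j h1 _ i1 =>
      have hg' : rgate2 ι κ base enc (C.gate g) = .or i j := h1
      cases hG : C.gate g with
      | leaf B' φ' => rw [hG] at hg'; simp [rgate2] at hg'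
      | and i' j' => rw [hG] at hg'; simp [rgate2] at hg'
      | or i' j' =>
        rw [hG] at hg'
        simp only [rgate2, Gate.or.injEq] at hg'
        obtain ⟨rfl, rfl⟩ := hg'
        exact .left hG i1
      | dec v ch =>
        rw [hG] at hg'
        simp only [rgate2] at hg'
        cases hκ : κ v with
        | none =>
          rw [hκ] at hg'
          simp only [Gate.or.injEq] at hg'
          obtain ⟨rfl, rfl⟩ := hg'
          refine .dec hG ?_
          have : ext2 κ base enc f v = base v := by
            unfold ext2
            rw [hκ]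
          rw [this]
          exact i1
        | some u => rw [hκ] at hg'; simp at hg'
    | @right g i j h1 _ i1 =>
      have hg' : rgate2 ι κ base enc (C.gate g) = .or i j := h1
      cases hG : C.gate g with
      | leaf B' φ' => rw [hG] at hg'; simp [rgate2] at hg'
      | and i' j' => rw [hG] at hg'; simp [rgate2] at hg'
      | or i' j' =>
        rw [hG] at hg'
        simp only [rgate2, Gate.or.injEq] at hg'
        obtain ⟨rfl, rfl⟩ := hg'
        exact .right hG i1
      | dec v ch =>
        rw [hG] at hg'
        simp only [rgate2] at hg'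
        cases hκ : κ v with
        | none =>
          rw [hκ] at hg'
          simp only [Gate.or.injEq] at hg'
          obtain ⟨rfl, rfl⟩ := hg'
          refine .dec hG ?_
          have : ext2 κ base enc f v = base v := by
            unfold ext2
            rw [hκ]
          rw [this]
          exact i1
        | some u => rw [hκ] at hg'; simp at hg'
    | @dec g v ch h1 _ i1 =>
      have hg' : rgate2 ι κ base enc (C.gate g) = .dec v ch := h1
      cases hG : C.gate g with
      | leaf B' φ' => rw [hG] at hg'; simp [rgate2] at hg'
      | and i' j' => rw [hG] at hg'; simp [rgate2] at hg'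
      | or i' j' => rw [hG] at hg'; simp [rgate2] at hg'
      | dec v' ch' =>
        rw [hG] at hg'
        simp only [rgate2] at hg'
        cases hκ : κ v' with
        | none => rw [hκ] at hg'; simp at hg'
        | some u =>
          rw [hκ] at hg'
          simp only [Gate.dec.injEq] at hg'
          obtain ⟨rfl, rfl⟩ := hg'
          refine .dec hG ?_
          have : ext2 κ base enc f v' = enc (f u) := by
            unfold ext2
            rw [hκ]
          rw [this]
          exact i1
  · intro h
    generalize hx : ext2 κ base enc f = x at h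
    induction h with
    | @leaf g B φ h1 h3 =>
      subst hx
      exact .leaf (B := pull ι B) (φ := fun f => φ (ext2 κ base enc f))
        (show rgate2 ι κ base enc (C.gate g) = _ by rw [h1]; rfl) h3
    | @and g i j h1 _ _ i1 i2 =>
      exact .and (show rgate2 ι κ base enc (C.gate g) = .and i j by rw [h1]; rfl) i1 i2
    | @left g i j h1 _ i1 =>
      exact .left (show rgate2 ι κ base enc (C.gate g) = .or i j by rw [h1]; rfl) i1
    | @right g i j h1 _ i1 =>
      exact .right (show rgate2 ι κ base enc (C.gate g) = .or i j by rw [h1]; rfl) i1
    | @dec g v ch h1 _ i1 =>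
      cases hκ : κ v with
      | none =>
        have h4 : x v = base v := by
          rw [← hx]
          unfold ext2
          rw [hκ]
        rw [h4] at i1
        refine .left (i := ch (base v)) (j := ch (base v)) ?_ i1
        show rgate2 ι κ base enc (C.gate g) = _
        rw [h1]
        simp only [rgate2]
        rw [hκ]
      | some u =>
        have h4 : x v = enc (f u) := by
          rw [← hx]
          unfold ext2
          rw [hκ]
        rw [h4] at i1
        refine .dec (v := u) (ch := fun b => ch (enc b)) ?_ i1
        show rgate2 ι κ base enc (C.gate g) = _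
        rw [h1]
        simp only [rgate2]
        rw [hκ]

end Pool.Agent.H561R2.LN
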