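import Pool.Agent.H561R2.LN.Restr2

/-!
# Circuits which compare labelled bits
-/

namespace Pool.Agent.H561R2.LN

open Finset Pool.Agent.H561R2.RO

variable {n S : ℕ} {Lab : Type} [DecidableEq Lab] [Fintype Lab]

/-- The assignment given by `P`. -/
def asg (lam mu : Fin n → Lab) (P : Lab → Bool) : Fin n ⊕ Fin n → Bool
  | .inl i => P (lam i)
  | .inr j => !P (mu j)

/-- The circuit accepts exactly the assignments in which bits with equal labels differ. -/
def Good (C : Circ (Fin n ⊕ Fin n) Bool S) (r : Fin S) (lam mu : Fin n → Lab) : Prop :=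
  ∀ f, C.Acc f r ↔ ∀ i j, lam i = mu j → f (.inl i) ≠ f (.inr j)

/-- The accepted computation on `P` is cut at gate `h`. -/
def Thr (C : Circ (Fin n ⊕ Fin n) Bool S) (r h : Fin S) (lam mu : Fin n → Lab)
    (P : Lab → Bool) : Prop :=
  C.Acc (asg lam mu P) h ∧ (C.cut h).Acc (asg lam mu P) r

variable {C : Circ (Fin n ⊕ Fin n) Bool S} {r : Fin S} {lam mu : Fin n → Lab}

omit [Fintype Lab] [DecidableEq Lab] in
theorem asg_acc (hC : Good C r lam mu) (P : Lab → Bool) : C.Acc (asg lam mu P) r := by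
  rw [hC]
  intro i j hij
  show P (lam i) ≠ !P (mu j)
  rw [hij]
  cases P (mu j) <;> simp

omit [Fintype Lab] [DecidableEq Lab] in
theorem exists_through (hC : Good C r lam mu) (h1 : ∀ i, ∃ j, mu j = lam i)
    (h2 : ∀ j, ∃ i, lam i = mu j) {w : ℕ} (hw : 1 ≤ w) (hleaf : C.LeafLE (2 * w))
    (hn : w < 2 * n) (P : Lab → Bool) :
    ∃ h, w < (C.scope h).card ∧ (C.scope h).card ≤ 2 * w ∧ Thr C r h lam mu P := by
  obtain ⟨L, hL⟩ := (asg_acc hC P).cert
  have huniv : L = univ := by
    rw [Finset.eq_univ_iff_forall]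
    intro v
    by_contra hv
    have h3 : C.Acc (Function.update (asg lam mu P) v (!asg lam mu P v)) r := by
      refine (hL.congr fun u hu => ?_).acc
      rw [Function.update_of_ne]
      rintro rfl
      exact hv hu
    rw [hC] at h3
    cases v with
    | inl i =>
      obtain ⟨j, hj⟩ := h1 i
      have := h3 i j hj.symm
      rw [Function.update_self, Function.update_of_ne (by simp)] at this
      refine this ?_
      show (!P (lam i)) = !P (mu j)
      rw [hj]
    | inr j =>
      obtain ⟨i, hi⟩ := h2 j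
      have := h3 i j hi
      rw [Function.update_self, Function.update_of_ne (by simp)] at this
      refine this ?_
      show P (lam i) = !!P (mu j)
      rw [hi, Bool.not_not]
  obtain ⟨h, L', k1, k2, k3, k4, k5, k6, k7⟩ := hL.exists_cut hw hleaf (by
    rw [huniv, Finset.card_univ, Fintype.card_sum, Fintype.card_fin]
    omega)
  refine ⟨h, lt_of_lt_of_le k4 (Finset.card_le_card k3.sub), le_trans (Finset.card_le_card ?_) k5,
    k3.acc, k7.acc⟩
  intro v hv
  by_contra hv'
  have h4 : v ∈ L \ L' := Finset.mem_sdiff.2 ⟨huniv ▸ Finset.mem_univ v, hv'⟩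
  exact (Finset.mem_sdiff.1 (k7.sub h4)).2 hv

omit [Fintype Lab] [DecidableEq Lab] in
theorem agree (hC : Good C r lam mu) {h : Fin S} {P P' : Lab → Bool} (hP : Thr C r h lam mu P)
    (hP' : Thr C r h lam mu P') {i j : Fin n} (hij : lam i = mu j)
    (hs : (Sum.inl i ∈ C.scope h ∧ Sum.inr j ∉ C.scope h) ∨
      (Sum.inl i ∉ C.scope h ∧ Sum.inr j ∈ C.scope h)) : P (lam i) = P' (lam i) := by
  have hg := Circ.Acc.glue hP.1 hP'.2
  rw [hC] at hg
  have h1 := hg i j hij
  rcases hs with ⟨h2, h3⟩ | ⟨h2, h3⟩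
  · rw [if_pos h2, if_neg h3] at h1
    have h4 : P (lam i) ≠ !P' (mu j) := h1
    rw [← hij] at h4
    revert h4
    cases P (lam i) <;> cases P' (lam i) <;> simp
  · rw [if_neg h2, if_pos h3] at h1
    have h4 : P' (lam i) ≠ !P (mu j) := h1
    rw [← hij] at h4
    revert h4
    cases P (lam i) <;> cases P' (lam i) <;> simp

/-- The labels which do not occur in `A`. -/
def unhit (lam : Fin n → Lab) (A : Finset (Fin n)) : Finset Lab :=
  univ.filter fun x => ∀ i ∈ A, lam i ≠ x

open Classical in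
theorem count_through (hC : Good C r lam mu) (h : Fin S) {A1 A2 : Finset (Fin n)}
    (hA : (∀ i ∈ A1, ∀ j ∈ A2, (Sum.inl i ∈ C.scope h ∧ Sum.inr j ∉ C.scope h) ∨
      (Sum.inl i ∉ C.scope h ∧ Sum.inr j ∈ C.scope h))) :
    (univ.filter fun P : Lab → Bool => Thr C r h lam mu P).card ≤
      2 ^ (unhit lam A1).card * 2 ^ (unhit mu A2).card := by
  have h1 : (univ.filter fun P : Lab → Bool => Thr C r h lam mu P).card ≤
      Fintype.card ((unhit lam A1 ∪ unhit mu A2 : Finset Lab) → Bool) := by
    rw [← Finset.card_univ]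
    refine Finset.card_le_card_of_injOn (fun P x => P x)
      (fun _ _ => Finset.mem_coe.2 (Finset.mem_univ _)) ?_
    intro P hP P' hP' hPP
    rw [Finset.mem_coe, Finset.mem_filter] at hP hP'
    funext x
    by_cases hx : x ∈ unhit lam A1 ∪ unhit mu A2
    · exact congrFun hPP ⟨x, hx⟩
    · rw [Finset.mem_union, not_or] at hx
      unfold unhit at hx
      simp only [Finset.mem_filter, Finset.mem_univ, true_and, not_forall, not_not] at hx
      obtain ⟨⟨i, hi, h2⟩, ⟨j, hj, h3⟩⟩ := hx
      have := agree hC hP.2 hP'.2 (h2.trans h3.symm) (hA i hi j hj)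
      rwa [h2] at this
  refine h1.trans ?_
  rw [Fintype.card_fun, Fintype.card_bool, Fintype.card_coe, ← pow_add]
  exact Nat.pow_le_pow_right (by norm_num) (Finset.card_union_le _ _)

end Pool.Agent.H561R2.LN
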